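import Mathlib

/-!
# Combinations of analytic functions that are divisible by a given one on a circle
-/

set_option autoImplicit false

open Filter Topology Metric Set

namespace Pool.Agent.Helper53.KU

/-- an analytic function that does not vanish identically on a circle has finitely many zeros
there -/
theorem finite_zeros {c : ℝ} {k : ℂ → ℂ} (hk : AnalyticOnNhd ℂ k (sphere (0 : ℂ) c))
    (hnz : ∀ z₀ ∈ sphere (0 : ℂ) c, ¬ ∀ᶠ z in 𝓝 z₀, k z = 0) :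
    {z ∈ sphere (0 : ℂ) c | k z = 0}.Finite := by
  by_contra hinf
  obtain ⟨z₀, hz₀, hacc⟩ := Set.Infinite.exists_accPt_of_subset_isCompact
    (K := sphere (0 : ℂ) c) hinf (isCompact_sphere 0 c) (fun z hz => hz.1)
  rcases (hk z₀ hz₀).eventually_eq_zero_or_eventually_ne_zero with h | h
  · exact hnz z₀ hz₀ h
  · rw [accPt_iff_frequently] at hacc
    rw [eventually_nhdsWithin_iff] at h
    obtain ⟨z, hz1, hz2⟩ := (hacc.and_eventually h).exists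
    exact hz2 hz1.1 hz1.2.2

theorem not_eventually_zero {c : ℝ} {k : ℂ → ℂ} (hk : AnalyticOnNhd ℂ k (sphere (0 : ℂ) c))
    (hne : ∃ z ∈ sphere (0 : ℂ) c, k z ≠ 0) :
    ∀ z₀ ∈ sphere (0 : ℂ) c, ¬ ∀ᶠ z in 𝓝 z₀, k z = 0 := by
  intro z₀ hz₀ h
  obtain ⟨z, hz, hkz⟩ := hne
  have hpre : IsPreconnected (sphere (0 : ℂ) c) := by
    refine isPreconnected_sphere ?_ 0 c
    rw [Complex.rank_real_complex]
    norm_num
  exact hkz (hk.eqOn_zero_of_preconnected_of_eventuallyEq_zero hpre hz₀ h hz)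

/-- local comparison -/
theorem local_le {k b : ℂ → ℂ} {z₀ : ℂ} {m : ℕ} {h : ℂ → ℂ} (hh : AnalyticAt ℂ h z₀)
    (hh0 : h z₀ ≠ 0) (hkh : ∀ᶠ z in 𝓝 z₀, k z = (z - z₀) ^ m • h z) {g : ℂ → ℂ}
    (hg : AnalyticAt ℂ g z₀) (hbg : ∀ᶠ z in 𝓝 z₀, b z = (z - z₀) ^ m • g z) :
    ∃ C : ℝ, 0 ≤ C ∧ ∀ᶠ z in 𝓝 z₀, ‖b z‖ ≤ C * ‖k z‖ := by
  have h1 : ∀ᶠ z in 𝓝 z₀, ‖h z₀‖ / 2 < ‖h z‖ := by
    have h2 : Tendsto (fun z => ‖h z‖) (𝓝 z₀) (𝓝 ‖h z₀‖) := hh.continuousAt.norm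
    refine h2.eventually (lt_mem_nhds ?_)
    have := norm_pos_iff.2 hh0
    linarith
  have h3 : ∀ᶠ z in 𝓝 z₀, ‖g z‖ < ‖g z₀‖ + 1 := by
    have h2 : Tendsto (fun z => ‖g z‖) (𝓝 z₀) (𝓝 ‖g z₀‖) := hg.continuousAt.norm
    exact h2.eventually (gt_mem_nhds (by linarith))
  have hpos := norm_pos_iff.2 hh0
  refine ⟨(‖g z₀‖ + 1) / (‖h z₀‖ / 2), by positivity, ?_⟩
  filter_upwards [h1, h3, hkh, hbg] with z hz1 hz3 hzk hzb
  rw [hzk, hzb, norm_smul, norm_smul]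
  have h4 : ‖g z‖ ≤ (‖g z₀‖ + 1) / (‖h z₀‖ / 2) * ‖h z‖ := by
    rw [div_mul_eq_mul_div, le_div_iff₀ (by positivity)]
    have h5 : ‖g z‖ * (‖h z₀‖ / 2) ≤ (‖g z₀‖ + 1) * (‖h z₀‖ / 2) :=
      mul_le_mul_of_nonneg_right hz3.le (by positivity)
    have h6 : (‖g z₀‖ + 1) * (‖h z₀‖ / 2) ≤ (‖g z₀‖ + 1) * ‖h z‖ :=
      mul_le_mul_of_nonneg_left hz1.le (by positivity)
    exact h5.trans h6
  calc ‖(z - z₀) ^ m‖ * ‖g z‖ ≤ ‖(z - z₀) ^ m‖ * ((‖g z₀‖ + 1) / (‖h z₀‖ / 2) * ‖h z‖) :=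
        mul_le_mul_of_nonneg_left h4 (norm_nonneg _)
    _ = (‖g z₀‖ + 1) / (‖h z₀‖ / 2) * (‖(z - z₀) ^ m‖ * ‖h z‖) := by ring

/-- comparison on the circle from the local comparison -/
theorem global_le {c : ℝ} {k b : ℂ → ℂ} (h : ∀ z₀ ∈ sphere (0 : ℂ) c, ∃ C : ℝ, 0 ≤ C ∧
      ∀ᶠ z in 𝓝 z₀, ‖b z‖ ≤ C * ‖k z‖) :
    ∃ C : ℝ, 0 ≤ C ∧ ∀ z ∈ sphere (0 : ℂ) c, ‖b z‖ ≤ C * ‖k z‖ := by
  refine (isCompact_sphere (0 : ℂ) c).induction_on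
    (p := fun S => ∃ C : ℝ, 0 ≤ C ∧ ∀ z ∈ S, ‖b z‖ ≤ C * ‖k z‖) ?_ ?_ ?_ ?_
  · exact ⟨0, le_refl _, fun z hz => absurd hz (notMem_empty z)⟩
  · rintro S T hST ⟨C, hC, hT⟩
    exact ⟨C, hC, fun z hz => hT z (hST hz)⟩
  · rintro S T ⟨C, hC, hS⟩ ⟨D, hD, hT⟩
    refine ⟨max C D, le_max_of_le_left hC, ?_⟩
    rintro z (hz | hz)
    · exact (hS z hz).trans (mul_le_mul_of_nonneg_right (le_max_left _ _) (norm_nonneg _))
    · exact (hT z hz).trans (mul_le_mul_of_nonneg_right (le_max_right _ _) (norm_nonneg _))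
  · intro z₀ hz₀
    obtain ⟨C, hC, hev⟩ := h z₀ hz₀
    exact ⟨{z | ‖b z‖ ≤ C * ‖k z‖}, mem_nhdsWithin_of_mem_nhds hev, C, hC, fun z hz => hz⟩

/-- a real linear system with fewer complex equations than unknowns -/
theorem solve_real {J : Type} [Fintype J] (n : ℕ) (hn : 2 * Fintype.card J ≤ n)
    (M : J → Fin (n + 1) → ℂ) :
    ∃ x : Fin (n + 1) → ℝ, x ≠ 0 ∧ ∀ j, ∑ i, (x i : ℂ) * M j i = 0 := by
  let L : (Fin (n + 1) → ℝ) →ₗ[ℝ] (J → ℂ) :=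
    { toFun := fun x j => ∑ i, (x i : ℂ) * M j i
      map_add' := by
        intro x y
        ext j
        simp only [Pi.add_apply, Complex.ofReal_add, add_mul, Finset.sum_add_distrib]
      map_smul' := by
        intro r x
        ext j
        simp only [Pi.smul_apply, smul_eq_mul, Complex.ofReal_mul, RingHom.id_apply,
          Complex.real_smul, Finset.mul_sum, mul_assoc] }
  have h1 : Module.finrank ℝ (J → ℂ) < Module.finrank ℝ (Fin (n + 1) → ℝ) := by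
    rw [Module.finrank_pi_fintype, Module.finrank_pi]
    simp only [Complex.finrank_real_complex, Finset.sum_const, Finset.card_univ, smul_eq_mul,
      Fintype.card_fin]
    omega
  obtain ⟨x, hx, hx0⟩ := Submodule.exists_mem_ne_zero_of_ne_bot
    (LinearMap.ker_ne_bot_of_finrank_lt (f := L) h1)
  refine ⟨x, hx0, fun j => ?_⟩
  have h2 : L x = 0 := LinearMap.mem_ker.1 hx
  exact congrFun h2 j

/-- a complex linear system with fewer equations than unknowns -/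
theorem solve_complex {J : Type} [Fintype J] (n : ℕ) (hn : Fintype.card J ≤ n)
    (M : J → Fin (n + 1) → ℂ) :
    ∃ x : Fin (n + 1) → ℂ, x ≠ 0 ∧ ∀ j, ∑ i, x i * M j i = 0 := by
  let L : (Fin (n + 1) → ℂ) →ₗ[ℂ] (J → ℂ) :=
    { toFun := fun x j => ∑ i, x i * M j i
      map_add' := by
        intro x y
        ext j
        simp only [Pi.add_apply, add_mul, Finset.sum_add_distrib]
      map_smul' := by
        intro r x
        ext j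
        simp only [Pi.smul_apply, smul_eq_mul, RingHom.id_apply, Finset.mul_sum, mul_assoc] }
  have h1 : Module.finrank ℂ (J → ℂ) < Module.finrank ℂ (Fin (n + 1) → ℂ) := by
    rw [Module.finrank_pi, Module.finrank_pi]
    simp only [Fintype.card_fin]
    omega
  obtain ⟨x, hx, hx0⟩ := Submodule.exists_mem_ne_zero_of_ne_bot
    (LinearMap.ker_ne_bot_of_finrank_lt (f := L) h1)
  refine ⟨x, hx0, fun j => ?_⟩
  have h2 : L x = 0 := LinearMap.mem_ker.1 hx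
  exact congrFun h2 j

/-- if all the Taylor conditions hold then the combination is divisible by `k` on the circle -/
theorem contact_core {c : ℝ} {k : ℂ → ℂ} (hk : AnalyticOnNhd ℂ k (sphere (0 : ℂ) c))
    (hne : ∃ z ∈ sphere (0 : ℂ) c, k z ≠ 0) :
    ∃ (J : Type) (_ : Fintype J) (ζ : J → ℂ) (e : J → ℕ), (∀ j, ζ j ∈ sphere (0 : ℂ) c) ∧
      ∀ b : ℂ → ℂ, AnalyticOnNhd ℂ b (sphere (0 : ℂ) c) →
        (∀ j, iteratedDeriv (e j) b (ζ j) = 0) →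
        ∃ C : ℝ, 0 ≤ C ∧ ∀ z ∈ sphere (0 : ℂ) c, ‖b z‖ ≤ C * ‖k z‖ := by
  have hnz := not_eventually_zero hk hne
  have hfin := finite_zeros hk hnz
  have hloc : ∀ z₀ ∈ sphere (0 : ℂ) c, ∃ (m : ℕ) (h : ℂ → ℂ), AnalyticAt ℂ h z₀ ∧ h z₀ ≠ 0 ∧
      ∀ᶠ z in 𝓝 z₀, k z = (z - z₀) ^ m • h z := fun z₀ hz₀ =>
    (hk z₀ hz₀).exists_eventuallyEq_pow_smul_nonzero_iff.2 (hnz z₀ hz₀)
  choose! m h hh hh0 hkh using hloc
  refine ⟨Σ z : hfin.toFinset, Fin (m z), inferInstance, fun j => j.1, fun j => j.2, ?_, ?_⟩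
  · intro j
    exact ((hfin.mem_toFinset).1 j.1.2).1
  · intro b hb hj
    refine global_le (fun z₀ hz₀ => ?_)
    by_cases hkz : k z₀ = 0
    · have hmem : z₀ ∈ hfin.toFinset := (hfin.mem_toFinset).2 ⟨hz₀, hkz⟩
      have h1 : ((m z₀ : ℕ) : ℕ∞) ≤ analyticOrderAt b z₀ := by
        rw [natCast_le_analyticOrderAt_iff_iteratedDeriv_eq_zero (hb z₀ hz₀)]
        intro i hi
        exact hj ⟨⟨z₀, hmem⟩, ⟨i, hi⟩⟩
      obtain ⟨g, hg, hbg⟩ := (natCast_le_analyticOrderAt (hb z₀ hz₀)).1 h1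
      exact local_le (hh z₀ hz₀) (hh0 z₀ hz₀) (hkh z₀ hz₀) hg hbg
    · refine local_le (m := 0) (hk z₀ hz₀) hkz ?_ (hb z₀ hz₀) ?_
      · exact Eventually.of_forall (fun z => by simp)
      · exact Eventually.of_forall (fun z => by simp)

theorem deriv_comb {n : ℕ} {b : Fin n → ℂ → ℂ} {ζ : ℂ} (hb : ∀ i, AnalyticAt ℂ (b i) ζ) (e : ℕ)
    (x : Fin n → ℂ) : iteratedDeriv e (fun z => ∑ i, x i * b i z) ζ =
      ∑ i, x i * iteratedDeriv e (b i) ζ := by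
  have h1 := iteratedDeriv_fun_sum (𝕜 := ℂ) (n := e) (x := ζ) (I := (Finset.univ : Finset (Fin n)))
    (f := fun i z => x i * b i z) (fun i _ => contDiffAt_const.mul (hb i).contDiffAt)
  rw [h1]
  refine Finset.sum_congr rfl (fun i _ => ?_)
  exact iteratedDeriv_const_mul_field (x i) (b i)

theorem analytic_comb {n : ℕ} {b : Fin n → ℂ → ℂ} {ζ : ℂ} (hb : ∀ i, AnalyticAt ℂ (b i) ζ)
    (x : Fin n → ℂ) : AnalyticAt ℂ (fun z => ∑ i, x i * b i z) ζ := by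
  refine Finset.analyticAt_fun_sum _ (fun i _ => ?_)
  exact analyticAt_const.mul (hb i)

/-- **Real combinations.** -/
theorem contact_real {c : ℝ} {k : ℂ → ℂ} (hk : AnalyticOnNhd ℂ k (sphere (0 : ℂ) c))
    (hne : ∃ z ∈ sphere (0 : ℂ) c, k z ≠ 0) :
    ∃ n : ℕ, ∀ b : Fin (n + 1) → ℂ → ℂ, (∀ i, AnalyticOnNhd ℂ (b i) (sphere (0 : ℂ) c)) →
      ∃ x : Fin (n + 1) → ℝ, x ≠ 0 ∧ ∃ C : ℝ, 0 ≤ C ∧ ∀ z ∈ sphere (0 : ℂ) c,
        ‖∑ i, (x i : ℂ) * b i z‖ ≤ C * ‖k z‖ := by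
  obtain ⟨J, hJ, ζ, e, hζ, hcore⟩ := contact_core hk hne
  refine ⟨2 * Fintype.card J, fun b hb => ?_⟩
  obtain ⟨x, hx0, hx⟩ := solve_real (2 * Fintype.card J) (le_refl _)
    (fun j i => iteratedDeriv (e j) (b i) (ζ j))
  refine ⟨x, hx0, ?_⟩
  refine hcore (fun z => ∑ i, (x i : ℂ) * b i z)
    (fun z hz => analytic_comb (fun i => hb i z hz) (fun i => (x i : ℂ))) (fun j => ?_)
  rw [deriv_comb (fun i => hb i (ζ j) (hζ j)) (e j) (fun i => (x i : ℂ))]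
  exact hx j

/-- **Complex combinations.** -/
theorem contact_complex {c : ℝ} {k : ℂ → ℂ} (hk : AnalyticOnNhd ℂ k (sphere (0 : ℂ) c))
    (hne : ∃ z ∈ sphere (0 : ℂ) c, k z ≠ 0) :
    ∃ n : ℕ, ∀ b : Fin (n + 1) → ℂ → ℂ, (∀ i, AnalyticOnNhd ℂ (b i) (sphere (0 : ℂ) c)) →
      ∃ x : Fin (n + 1) → ℂ, x ≠ 0 ∧ ∃ C : ℝ, 0 ≤ C ∧ ∀ z ∈ sphere (0 : ℂ) c,
        ‖∑ i, x i * b i z‖ ≤ C * ‖k z‖ := by
  obtain ⟨J, hJ, ζ, e, hζ, hcore⟩ := contact_core hk hne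
  refine ⟨Fintype.card J, fun b hb => ?_⟩
  obtain ⟨x, hx0, hx⟩ := solve_complex (Fintype.card J) (le_refl _)
    (fun j i => iteratedDeriv (e j) (b i) (ζ j))
  refine ⟨x, hx0, ?_⟩
  refine hcore (fun z => ∑ i, x i * b i z)
    (fun z hz => analytic_comb (fun i => hb i z hz) x) (fun j => ?_)
  rw [deriv_comb (fun i => hb i (ζ j) (hζ j)) (e j) x]
  exact hx j

/-- the reflected function `conj (F (c ^ 2 / conj z))` -/
noncomputable def refl (c : ℝ) (F : ℂ → ℂ) (z : ℂ) : ℂ :=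
  (starRingEnd ℂ) (F ((c : ℂ) ^ 2 / (starRingEnd ℂ) z))

theorem reflect_eq {c : ℝ} (h0 : 0 < c) {z : ℂ} (hz : ‖z‖ = c) :
    (c : ℂ) ^ 2 / (starRingEnd ℂ) z = z := by
  have hz0 : (starRingEnd ℂ) z ≠ 0 := by
    intro h
    rw [map_eq_zero] at h
    rw [h, norm_zero] at hz
    linarith
  rw [div_eq_iff hz0, Complex.mul_conj, Complex.normSq_eq_norm_sq, hz]
  push_cast
  ring

theorem refl_eq {c : ℝ} (h0 : 0 < c) {F : ℂ → ℂ} {z : ℂ} (hz : ‖z‖ = c) :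
    refl c F z = (starRingEnd ℂ) (F z) := by
  rw [refl, reflect_eq h0 hz]

theorem refl_analytic {c : ℝ} (h0 : 0 < c) {F : ℂ → ℂ} {U : Set ℂ} (hU : IsOpen U)
    (hcU : ∀ z : ℂ, ‖z‖ = c → z ∈ U) (hF : DifferentiableOn ℂ F U) :
    AnalyticOnNhd ℂ (refl c F) (sphere (0 : ℂ) c) := by
  intro z₀ hz₀
  have hz₀' : ‖z₀‖ = c := by simpa using hz₀
  have hne0 : z₀ ≠ 0 := by
    intro h
    rw [h, norm_zero] at hz₀'
    linarith
  rw [Complex.analyticAt_iff_eventually_differentiableAt]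
  have hcont : ContinuousAt (fun z : ℂ => (c : ℂ) ^ 2 / (starRingEnd ℂ) z) z₀ := by
    refine ContinuousAt.div continuousAt_const Complex.continuous_conj.continuousAt ?_
    rw [Ne, map_eq_zero]
    exact hne0
  have h1 : ∀ᶠ z in 𝓝 z₀, (c : ℂ) ^ 2 / (starRingEnd ℂ) z ∈ U := by
    refine hcont.eventually_mem ?_
    rw [reflect_eq h0 hz₀']
    exact hU.mem_nhds (hcU z₀ hz₀')
  have h2 : ∀ᶠ z in 𝓝 z₀, z ≠ 0 := isOpen_ne.mem_nhds hne0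
  filter_upwards [h1, h2] with z hz hz0
  have h3 : DifferentiableAt ℂ (fun w : ℂ => F ((c : ℂ) ^ 2 / w)) ((starRingEnd ℂ) z) := by
    have h4 : DifferentiableAt ℂ F ((c : ℂ) ^ 2 / (starRingEnd ℂ) z) :=
      hF.differentiableAt (hU.mem_nhds hz)
    refine DifferentiableAt.comp ((starRingEnd ℂ) z) h4 ?_
    refine DifferentiableAt.div (differentiableAt_const _) differentiableAt_id ?_
    rw [Ne, map_eq_zero]
    exact hz0
  have h5 := h3.hasDerivAt.conj_conj.differentiableAt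
  rw [Complex.conj_conj] at h5
  exact h5

/-- Piece Z3. -/
theorem contact {c : ℝ} (h0 : 0 < c) {Θ : ℂ → ℂ} {U : Set ℂ} (hU : IsOpen U)
    (hcU : ∀ z : ℂ, ‖z‖ = c → z ∈ U) (hΘ : DifferentiableOn ℂ Θ U)
    (hle : ∀ z : ℂ, ‖z‖ = c → ‖Θ z‖ ≤ 1) (hne : ∃ z : ℂ, ‖z‖ = c ∧ ‖Θ z‖ ≠ 1) :
    ∃ n : ℕ, ∀ Bs : Fin (n + 1) → ℂ → ℂ, (∀ i, DifferentiableOn ℂ (Bs i) U) →
      ∃ x : Fin (n + 1) → ℝ, x ≠ 0 ∧ ∃ C : ℝ, ∀ z : ℂ, ‖z‖ = c →
        |(∑ i, (x i : ℂ) * Bs i z).re| ≤ C * (1 - ‖Θ z‖ ^ 2) := by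
  have hmem : ∀ z : ℂ, z ∈ sphere (0 : ℂ) c ↔ ‖z‖ = c := by
    intro z
    simp
  have han : ∀ F : ℂ → ℂ, DifferentiableOn ℂ F U → AnalyticOnNhd ℂ F (sphere (0 : ℂ) c) := by
    intro F hF z hz
    exact hF.analyticAt (hU.mem_nhds (hcU z ((hmem z).1 hz)))
  obtain ⟨k, hkdef⟩ : ∃ k : ℂ → ℂ, k = fun z => 1 - Θ z * refl c Θ z := ⟨_, rfl⟩
  have hkv : ∀ z : ℂ, ‖z‖ = c → k z = ((1 - ‖Θ z‖ ^ 2 : ℝ) : ℂ) := by
    intro z hz
    rw [hkdef]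
    simp only
    rw [refl_eq h0 hz, Complex.mul_conj, Complex.normSq_eq_norm_sq]
    push_cast
    ring
  have hk : AnalyticOnNhd ℂ k (sphere (0 : ℂ) c) := by
    rw [hkdef]
    intro z hz
    exact analyticAt_const.sub ((han Θ hΘ z hz).mul (refl_analytic h0 hU hcU hΘ z hz))
  have hkne : ∃ z ∈ sphere (0 : ℂ) c, k z ≠ 0 := by
    obtain ⟨z, hz, h1⟩ := hne
    refine ⟨z, (hmem z).2 hz, ?_⟩
    rw [hkv z hz]
    intro h
    apply h1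
    have h2 : 1 - ‖Θ z‖ ^ 2 = 0 := by exact_mod_cast h
    have h3 : ‖Θ z‖ ^ 2 = 1 ^ 2 := by linarith
    exact (pow_left_inj₀ (norm_nonneg _) (by norm_num) (by norm_num)).1 h3
  obtain ⟨n, hn⟩ := contact_real hk hkne
  refine ⟨n, fun Bs hBs => ?_⟩
  obtain ⟨x, hx0, C, _, hC⟩ := hn (fun i z => (Bs i z + refl c (Bs i) z) / 2) (by
    intro i z hz
    exact ((han _ (hBs i) z hz).add (refl_analytic h0 hU hcU (hBs i) z hz)).div_const)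
  refine ⟨x, hx0, C, fun z hz => ?_⟩
  have h1 := hC z ((hmem z).2 hz)
  have h2 : ∑ i, (x i : ℂ) * ((Bs i z + refl c (Bs i) z) / 2) =
      (((∑ i, (x i : ℂ) * Bs i z).re : ℝ) : ℂ) := by
    rw [Complex.re_sum, Complex.ofReal_sum]
    refine Finset.sum_congr rfl (fun i _ => ?_)
    rw [refl_eq h0 hz, Complex.re_ofReal_mul, Complex.ofReal_mul, Complex.re_eq_add_conj]
  rw [h2, hkv z hz, Complex.norm_real, Complex.norm_real, Real.norm_eq_abs, Real.norm_eq_abs] at h1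
  have h3 : 0 ≤ 1 - ‖Θ z‖ ^ 2 := by
    have := hle z hz
    have h4 := norm_nonneg (Θ z)
    nlinarith
  rw [abs_of_nonneg h3] at h1
  exact h1

end Pool.Agent.Helper53.KU

namespace Pool.Agent.Helper23.KU

/-- Piece contactC. -/
theorem contactC {c : ℝ} (_h0 : 0 < c) {K : ℂ → ℂ} {U : Set ℂ} (hU : IsOpen U)
    (hcU : ∀ z : ℂ, ‖z‖ = c → z ∈ U) (hK : DifferentiableOn ℂ K U)
    (hne : ∃ z : ℂ, ‖z‖ = c ∧ K z ≠ 0) :
    ∃ n : ℕ, ∀ Bs : Fin (n + 1) → ℂ → ℂ, (∀ i, DifferentiableOn ℂ (Bs i) U) →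
      ∃ x : Fin (n + 1) → ℂ, x ≠ 0 ∧ ∃ C : ℝ, ∀ z : ℂ, ‖z‖ = c →
        ‖∑ i, x i * Bs i z‖ ≤ C * ‖K z‖ := by
  have hmem : ∀ z : ℂ, z ∈ sphere (0 : ℂ) c ↔ ‖z‖ = c := by
    intro z
    simp
  have han : ∀ F : ℂ → ℂ, DifferentiableOn ℂ F U → AnalyticOnNhd ℂ F (sphere (0 : ℂ) c) := by
    intro F hF z hz
    exact hF.analyticAt (hU.mem_nhds (hcU z ((hmem z).1 hz)))
  obtain ⟨z₁, hz₁, hK₁⟩ := hne
  obtain ⟨n, hn⟩ := Pool.Agent.Helper53.KU.contact_complex (han K hK) ⟨z₁, (hmem z₁).2 hz₁, hK₁⟩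
  refine ⟨n, fun Bs hBs => ?_⟩
  obtain ⟨x, hx0, C, _, hC⟩ := hn Bs (fun i => han _ (hBs i))
  exact ⟨x, hx0, C, fun z hz => hC z ((hmem z).2 hz)⟩

end Pool.Agent.Helper23.KU
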