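import Pool.Agent.Helper98.KU.Blaschke
import Pool.Agent.Helper23.KU.ZDefs

/-!
# A holomorphic function on the disc whose modulus on the circle `|z| = c` is the modulus of a
quotient of polynomials is rational (piece Z6)
-/

set_option autoImplicit false

open Filter Topology Metric Set Polynomial

namespace Pool.Agent.Helper53.KU

open Pool.Agent.Helper23.KU (mm mr)

/-- the polynomial with the values `mm s` -/
noncomputable def pm (s : Multiset ℂ) : ℂ[X] := (s.map fun a => X - C a).prod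

theorem pm_eval (s : Multiset ℂ) (z : ℂ) : (pm s).eval z = mm s z := by
  induction s using Multiset.induction_on with
  | empty => simp [pm, mm]
  | cons a s ih =>
    unfold pm mm at *
    rw [Multiset.map_cons, Multiset.prod_cons, eval_mul, ih, Multiset.map_cons, Multiset.prod_cons]
    simp

/-- the product of the `r ^ 2 - conj a * z` -/
noncomputable def rp (r : ℝ) (s : Multiset ℂ) : ℂ[X] :=
  (s.map fun a => C ((r : ℂ) ^ 2) - C ((starRingEnd ℂ) a) * X).prod

theorem rp_cons (r : ℝ) (a : ℂ) (s : Multiset ℂ) :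
    rp r (a ::ₘ s) = (C ((r : ℂ) ^ 2) - C ((starRingEnd ℂ) a) * X) * rp r s := by
  unfold rp
  rw [Multiset.map_cons, Multiset.prod_cons]

theorem mm_cons (a : ℂ) (s : Multiset ℂ) (z : ℂ) : mm (a ::ₘ s) z = (z - a) * mm s z := by
  unfold mm
  rw [Multiset.map_cons, Multiset.prod_cons]

/-- on `|z| = r` the reflected product has the modulus `r ^ s.card * |mm s z|` -/
theorem rp_norm {r : ℝ} (s : Multiset ℂ) {z : ℂ} (hz : ‖z‖ = r) :
    ‖(rp r s).eval z‖ = r ^ s.card * ‖mm s z‖ := by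
  induction s using Multiset.induction_on with
  | empty => simp [rp, mm]
  | cons a s ih =>
    rw [rp_cons, eval_mul, norm_mul, ih, mm_cons, norm_mul, Multiset.card_cons]
    have h1 : ‖(C ((r : ℂ) ^ 2) - C ((starRingEnd ℂ) a) * X).eval z‖ = r * ‖z - a‖ := by
      simp only [eval_sub, eval_mul, eval_C, eval_X]
      have h2 : (r : ℂ) ^ 2 = z * (starRingEnd ℂ) z := by
        rw [Complex.mul_conj, Complex.normSq_eq_norm_sq, hz]
        push_cast
        ring
      rw [h2]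
      have h3 : z * (starRingEnd ℂ) z - (starRingEnd ℂ) a * z = z * (starRingEnd ℂ) (z - a) := by
        rw [map_sub]
        ring
      rw [h3, norm_mul, Complex.norm_conj, hz]
    rw [h1]
    ring

/-- the reflected product has no zeros in `|z| ≤ r` -/
theorem rp_ne {r : ℝ} (s : Multiset ℂ) (hs : ∀ a ∈ s, ‖a‖ < r) {z : ℂ} (hz : ‖z‖ ≤ r)
    (h0 : 0 < r) : (rp r s).eval z ≠ 0 := by
  induction s using Multiset.induction_on with
  | empty => simp [rp]
  | cons a s ih =>
    rw [rp_cons, eval_mul]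
    refine mul_ne_zero ?_ (ih (fun b hb => hs b (Multiset.mem_cons_of_mem hb)))
    simp only [eval_sub, eval_mul, eval_C, eval_X]
    intro h
    have h1 : (r : ℂ) ^ 2 = (starRingEnd ℂ) a * z := sub_eq_zero.1 h
    have h2 : r ^ 2 = ‖a‖ * ‖z‖ := by
      have h3 := congrArg norm h1
      rw [norm_pow, norm_mul, Complex.norm_conj, Complex.norm_real, Real.norm_eq_abs,
        abs_of_pos h0] at h3
      exact h3
    have h4 := hs a (Multiset.mem_cons_self a s)
    have h5 : ‖a‖ * ‖z‖ < r * r := by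
      have h6 : ‖a‖ * ‖z‖ ≤ ‖a‖ * r := mul_le_mul_of_nonneg_left hz (norm_nonneg _)
      have h7 : ‖a‖ * r < r * r := mul_lt_mul_of_pos_right h4 h0
      exact h6.trans_lt h7
    nlinarith

theorem rp_ne_zero {r : ℝ} (s : Multiset ℂ) (hs : ∀ a ∈ s, ‖a‖ < r) (h0 : 0 < r) :
    rp r s ≠ 0 := by
  intro h
  have := rp_ne s hs (z := 0) (by simpa using h0.le) h0
  rw [h] at this
  simp at this

/-- **Piece Z6.** -/
theorem rat_of_unimod {r : ℝ} (h0 : 0 < r) (h1 : r < 1) {χ : ℂ → ℂ}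
    (hχ : DifferentiableOn ℂ χ (ball 0 1)) {s : Multiset ℂ} (hs : ∀ a ∈ s, ‖a‖ < r) {P : ℂ[X]}
    (hP : P ≠ 0) (hu : ∀ z : ℂ, ‖z‖ = r → ‖χ z * P.eval z‖ = ‖mm s z‖) :
    ∃ p q : ℂ[X], q ≠ 0 ∧ ∀ z ∈ ball (0 : ℂ) 1, q.eval z * χ z = p.eval z := by
  have hrc : (r : ℂ) ≠ 0 := by exact_mod_cast h0.ne'
  -- the zero-free unimodular function, scaled to the unit disc
  obtain ⟨φ, hφ⟩ : ∃ φ : ℂ → ℂ, φ = fun w => χ (r * w) * P.eval (r * w) * (r : ℂ) ^ s.card /
      (rp r s).eval (r * w) := ⟨_, rfl⟩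
  have hin : ∀ w : ℂ, ‖w‖ ≤ 1 → (r : ℂ) * w ∈ ball (0 : ℂ) 1 := by
    intro w hw
    rw [mem_ball_zero_iff, norm_mul, Complex.norm_real, Real.norm_eq_abs, abs_of_pos h0]
    nlinarith
  have hne : ∀ w : ℂ, ‖w‖ ≤ 1 → (rp r s).eval ((r : ℂ) * w) ≠ 0 := by
    intro w hw
    refine rp_ne s hs ?_ h0
    rw [norm_mul, Complex.norm_real, Real.norm_eq_abs, abs_of_pos h0]
    nlinarith
  have hd : ∀ w : ℂ, ‖w‖ ≤ 1 → DifferentiableAt ℂ φ w := by
    intro w hw
    rw [hφ]
    have h2 : DifferentiableAt ℂ χ ((r : ℂ) * w) :=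
      hχ.differentiableAt (isOpen_ball.mem_nhds (hin w hw))
    have h3 : DifferentiableAt ℂ (fun w : ℂ => (r : ℂ) * w) w :=
      (differentiableAt_const _).mul differentiableAt_id
    have h4 : DifferentiableAt ℂ (fun w : ℂ => χ ((r : ℂ) * w)) w :=
      DifferentiableAt.comp w h2 h3
    have h5 : ∀ Q : ℂ[X], DifferentiableAt ℂ (fun w : ℂ => Q.eval ((r : ℂ) * w)) w := fun Q =>
      DifferentiableAt.comp w (Q.differentiable _) h3
    exact ((h4.mul (h5 P)).mul_const _).div (h5 _) (hne w hw)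
  have hφ1 : ∀ w : ℂ, ‖w‖ = 1 → ‖φ w‖ = 1 := by
    intro w hw
    have hz : ‖(r : ℂ) * w‖ = r := by
      rw [norm_mul, Complex.norm_real, Real.norm_eq_abs, abs_of_pos h0, hw, mul_one]
    rw [hφ]
    simp only
    rw [norm_div, norm_mul, hu _ hz, rp_norm s hz, norm_pow, Complex.norm_real,
      Real.norm_eq_abs, abs_of_pos h0, mul_comm]
    refine div_self ?_
    have h2 := hne w hw.le
    rw [← norm_ne_zero_iff, rp_norm s hz] at h2
    exact h2
  obtain ⟨t, κ, ht, hbl⟩ := Pool.Agent.Helper23.KU.blaschke (χ := φ) (F := 1) one_pos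
    (fun w hw => (hd w (by simpa using hw)).continuousAt.continuousWithinAt)
    (fun w hw => (hd w (by
      have := mem_ball_zero_iff.1 hw
      exact this.le)).differentiableWithinAt) hφ1
  -- the polynomials
  obtain ⟨Q1, hQ1⟩ : ∃ Q1 : ℂ[X], Q1 = (t.map fun b => C (r : ℂ) - C ((starRingEnd ℂ) b) * X).prod :=
    ⟨_, rfl⟩
  obtain ⟨Q2, hQ2⟩ : ∃ Q2 : ℂ[X], Q2 = (t.map fun b => X - C ((r : ℂ) * b)).prod := ⟨_, rfl⟩
  have hQ1e : ∀ w : ℂ, Q1.eval ((r : ℂ) * w) =
      (r : ℂ) ^ t.card * (t.map fun b => 1 - (starRingEnd ℂ) b * w).prod := by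
    intro w
    rw [hQ1]
    clear hbl ht hQ1 hQ2
    induction t using Multiset.induction_on with
    | empty => simp
    | cons b t ih =>
      rw [Multiset.map_cons, Multiset.prod_cons, eval_mul, ih, Multiset.map_cons,
        Multiset.prod_cons, Multiset.card_cons]
      simp only [eval_sub, eval_mul, eval_C, eval_X]
      ring
  have hQ2e : ∀ w : ℂ, Q2.eval ((r : ℂ) * w) =
      (r : ℂ) ^ t.card * (t.map fun b => w - b).prod := by
    intro w
    rw [hQ2]
    clear hbl ht hQ1 hQ2 hQ1e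
    induction t using Multiset.induction_on with
    | empty => simp
    | cons b t ih =>
      rw [Multiset.map_cons, Multiset.prod_cons, eval_mul, ih, Multiset.map_cons,
        Multiset.prod_cons, Multiset.card_cons]
      simp only [eval_sub, eval_C, eval_X]
      ring
  have hQ1ne : Q1 ≠ 0 := by
    rw [hQ1]
    rw [Ne, Multiset.prod_eq_zero_iff]
    intro h
    obtain ⟨b, hb, hb0⟩ := Multiset.mem_map.1 h
    have h2 := congrArg (fun Q : ℂ[X] => Q.eval 0) hb0
    simp only [eval_sub, eval_mul, eval_C, eval_X, mul_zero, sub_zero, eval_zero] at h2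
    exact hrc h2
  have hkey : ∀ z ∈ ball (0 : ℂ) r, (Q1 * P * C ((r : ℂ) ^ s.card)).eval z * χ z =
      (C κ * Q2 * rp r s).eval z := by
    intro z hz
    have hz' : ‖z‖ < r := mem_ball_zero_iff.1 hz
    have hw : ‖z / (r : ℂ)‖ < 1 := by
      rw [norm_div, Complex.norm_real, Real.norm_eq_abs, abs_of_pos h0, div_lt_one h0]
      exact hz'
    have hrw : (r : ℂ) * (z / (r : ℂ)) = z := by
      field_simp
    have h2 := hbl (z / (r : ℂ)) (mem_ball_zero_iff.2 hw)
    rw [hφ] at h2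
    simp only at h2
    have h3 := hQ1e (z / (r : ℂ))
    have h4 := hQ2e (z / (r : ℂ))
    have h5 := hne (z / (r : ℂ)) hw.le
    rw [hrw] at h2 h3 h4 h5
    simp only [eval_mul, eval_C]
    rw [h3, h4]
    have h6 : χ z * P.eval z * (r : ℂ) ^ s.card *
        (t.map fun b => 1 - (starRingEnd ℂ) b * (z / (r : ℂ))).prod =
        κ * (t.map fun b => z / (r : ℂ) - b).prod * (rp r s).eval z := by
      rw [div_mul_eq_mul_div, div_eq_iff h5] at h2
      exact h2
    calc (r : ℂ) ^ t.card * (t.map fun b => 1 - (starRingEnd ℂ) b * (z / (r : ℂ))).prod *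
          P.eval z * (r : ℂ) ^ s.card * χ z
        = (r : ℂ) ^ t.card * (χ z * P.eval z * (r : ℂ) ^ s.card *
          (t.map fun b => 1 - (starRingEnd ℂ) b * (z / (r : ℂ))).prod) := by ring
      _ = κ * ((r : ℂ) ^ t.card * (t.map fun b => z / (r : ℂ) - b).prod) *
          (rp r s).eval z := by rw [h6]; ring
  refine ⟨C κ * Q2 * rp r s, Q1 * P * C ((r : ℂ) ^ s.card), ?_, ?_⟩
  · refine mul_ne_zero (mul_ne_zero hQ1ne hP) ?_
    rw [Ne, C_eq_zero]
    exact pow_ne_zero _ hrc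
  · have hA : AnalyticOnNhd ℂ (fun z => (Q1 * P * C ((r : ℂ) ^ s.card)).eval z * χ z)
        (ball (0 : ℂ) 1) :=
      (DifferentiableOn.mul (Polynomial.differentiable _).differentiableOn hχ).analyticOnNhd
        isOpen_ball
    have hB : AnalyticOnNhd ℂ (fun z => (C κ * Q2 * rp r s).eval z) (ball (0 : ℂ) 1) :=
      (Polynomial.differentiable _).differentiableOn.analyticOnNhd isOpen_ball
    have h2 := hA.eqOn_of_preconnected_of_eventuallyEq hB
      (convex_ball (0 : ℂ) 1).isPreconnected (mem_ball_self one_pos)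
      (by
        have h3 : ball (0 : ℂ) r ∈ 𝓝 (0 : ℂ) := ball_mem_nhds _ h0
        filter_upwards [h3] with z hz
        exact hkey z hz)
    exact fun z hz => h2 hz

end Pool.Agent.Helper53.KU

namespace Pool.Agent.Helper23.KU

/-- Piece H. -/
theorem rat_full {c : ℝ} (h0 : 0 < c) (h1 : c < 1) {N : ℂ → ℂ} {s : Multiset ℂ}
    (hs : ∀ a ∈ s, ‖a‖ < c) (hN : DifferentiableOn ℂ N (ball 0 1))
    (hu : ∀ z : ℂ, ‖z‖ = c → ‖N z‖ = ‖mm s z‖) :
    ∃ p q : ℂ[X], q ≠ 0 ∧ ∀ z ∈ ball (0 : ℂ) 1, q.eval z * N z = p.eval z :=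
  Pool.Agent.Helper53.KU.rat_of_unimod h0 h1 hN hs (P := 1) one_ne_zero (fun z hz => by
    rw [eval_one, mul_one]
    exact hu z hz)

end Pool.Agent.Helper23.KU
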